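import Mathlib
import Pool.Agent.H.MP_d93746_co.helper61.Pend

/-!
For every `n ≥ 151` there is a connected bipartite graph with `n` vertices which has an additive
colouring with labels from `{1, 2, 3}` but none with labels from `{1, 2}`.
-/

set_option autoImplicit false
open Classical

namespace Pool.Agent.Results.MP_d93746_co.BipartiteThree

open Pool.Agent.H.MP_d93746_co Pool.Agent.H.MP_d93746_co.Pend

/-! ### The notions of the problem -/

section Notions

variable {V : Type} [Fintype V]

/-- `nbrSum G f v` is the sum of the labels `f x` over the neighbours `x` of `v`. -/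
noncomputable def nbrSum (G : SimpleGraph V) (f : V → ℕ) (v : V) : ℕ :=
  ∑ x ∈ Finset.univ.filter (fun x => G.Adj v x), f x

/-- `f` is an additive colouring of `G`: adjacent vertices have different neighbourhood sums. -/
def IsAdditive (G : SimpleGraph V) (f : V → ℕ) : Prop :=
  ∀ u v : V, G.Adj u v → nbrSum G f u ≠ nbrSum G f v

/-- The additive colouring number: the least positive integer `k` such that `G` has an additive
colouring with all labels in `{1, …, k}`. -/
noncomputable def eta (G : SimpleGraph V) : ℕ :=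
  sInf {k : ℕ | 0 < k ∧ ∃ f : V → ℕ, (∀ v, 1 ≤ f v ∧ f v ≤ k) ∧ IsAdditive G f}

end Notions

/-! ### The graph with `m` pendant vertices attached to the outer vertex `0` -/

/-- Adjacency. -/
def ad {m : ℕ} : Vtx ⊕ Fin m → Vtx ⊕ Fin m → Prop
  | Sum.inl x, Sum.inl y => adj x y = true
  | Sum.inl x, Sum.inr _ => x = Sum.inl 0
  | Sum.inr _, Sum.inl y => y = Sum.inl 0
  | Sum.inr _, Sum.inr _ => False

/-- The graph. -/
def H (m : ℕ) : SimpleGraph (Vtx ⊕ Fin m) where
  Adj := ad
  symm := ⟨by
    rintro (x | i) (y | j) h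
    · simp only [ad] at h ⊢
      rw [adj_symm]; exact h
    · exact h
    · exact h
    · exact h⟩
  loopless := ⟨by
    rintro (x | i) h
    · simp only [ad] at h
      rw [adj_self] at h
      exact absurd h (by simp)
    · exact h⟩

theorem H_colorable (m : ℕ) : (H m).Colorable 2 := by
  let c : Vtx ⊕ Fin m → Bool := fun x => Sum.elim side (fun _ => false) x
  have C : (H m).Coloring Bool := SimpleGraph.Coloring.mk c (by
    rintro (x | i) (y | j) h
    · exact side_ne x y h
    · have h' : x = Sum.inl 0 := h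
      subst h'
      change side (Sum.inl 0) ≠ false
      decide
    · have h' : y = Sum.inl 0 := h
      subst h'
      change false ≠ side (Sum.inl 0)
      decide
    · exact absurd h (fun h => h))
  have := C.colorable
  simpa using this

theorem H_chi (m : ℕ) : (H m).chromaticNumber = 2 := by
  refine le_antisymm (H_colorable m).chromaticNumber_le ?_
  apply SimpleGraph.two_le_chromaticNumber_of_adj
    (u := Sum.inl (Sum.inl 0)) (v := Sum.inl (Sum.inr (Sum.inr (0, 4))))
  change adj _ _ = true
  decide

theorem H_connected (m : ℕ) : (H m).Connected := by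
  have key : ∀ n : ℕ, ∀ v : Vtx, rnk v ≤ n →
      (H m).Reachable (Sum.inl v) (Sum.inl (Sum.inl 0)) := by
    intro n
    induction n with
    | zero =>
      intro v hv
      rcases nxt_spec v with h | ⟨_, h⟩
      · rw [h]
      · omega
    | succ n ih =>
      intro v hv
      rcases nxt_spec v with h | ⟨h1, h2⟩
      · rw [h]
      · have hadj : (H m).Adj (Sum.inl v) (Sum.inl (nxt v)) := h1
        exact hadj.reachable.trans (ih _ (by omega))
  have root : ∀ v : Vtx ⊕ Fin m, (H m).Reachable v (Sum.inl (Sum.inl 0)) := by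
    rintro (v | i)
    · exact key _ v le_rfl
    · have hadj : (H m).Adj (Sum.inr i) (Sum.inl (Sum.inl 0)) := rfl
      exact hadj.reachable
  have : Nonempty (Vtx ⊕ Fin m) := ⟨Sum.inl (Sum.inl 0)⟩
  exact ⟨fun u v => (root u).trans (root v).symm⟩

/-- Neighbourhood sums of the vertices of blocks. -/
theorem nbrSum_blk {m : ℕ} (f : Vtx ⊕ Fin m → ℕ) (a : Blk) :
    nbrSum (H m) f (Sum.inl (Sum.inr a)) = nsum (fun x => f (Sum.inl x)) (Sum.inr a) := by
  unfold nbrSum nsum
  rw [Finset.sum_filter, Fintype.sum_sum_type]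
  have h2 : (∑ x : Fin m, if (H m).Adj (Sum.inl (Sum.inr a)) (Sum.inr x) then f (Sum.inr x)
      else 0) = 0 := by
    apply Finset.sum_eq_zero
    intro x _
    rw [if_neg]
    intro h
    have h' : (Sum.inr a : Vtx) = Sum.inl 0 := h
    exact absurd h' (by simp)
  rw [h2, add_zero]
  apply Finset.sum_congr rfl
  intro x _
  have e : (H m).Adj (Sum.inl (Sum.inr a)) (Sum.inl x) ↔ adj (Sum.inr a) x = true := Iff.rfl
  simp only [e]

theorem nbrSum_outer {m : ℕ} (f : Vtx ⊕ Fin m → ℕ) (r : Fin 6) :
    nsum (fun x => f (Sum.inl x)) (Sum.inl r) ≤ nbrSum (H m) f (Sum.inl (Sum.inl r)) := by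
  have h1 : nbrSum (H m) f (Sum.inl (Sum.inl r)) = nsum (fun x => f (Sum.inl x)) (Sum.inl r) +
      ∑ x : Fin m, if (H m).Adj (Sum.inl (Sum.inl r)) (Sum.inr x) then f (Sum.inr x) else 0 := by
    unfold nbrSum nsum
    rw [Finset.sum_filter, Fintype.sum_sum_type, add_left_inj]
    apply Finset.sum_congr rfl
    intro x _
    have e : (H m).Adj (Sum.inl (Sum.inl r)) (Sum.inl x) ↔ adj (Sum.inl r) x = true := Iff.rfl
    simp only [e]
  omega

theorem nbrSum_pendant {m : ℕ} (f : Vtx ⊕ Fin m → ℕ) (i : Fin m) :
    nbrSum (H m) f (Sum.inr i) = f (Sum.inl (Sum.inl 0)) := by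
  unfold nbrSum
  rw [Finset.sum_eq_single (Sum.inl (Sum.inl 0) : Vtx ⊕ Fin m)]
  · rintro (x | j) hx hne
    · rw [Finset.mem_filter] at hx
      have h' : x = Sum.inl 0 := hx.2
      exact absurd (by rw [h']) hne
    · rw [Finset.mem_filter] at hx
      exact absurd hx.2 (fun h => h)
  · intro h
    exfalso
    apply h
    rw [Finset.mem_filter]
    exact ⟨Finset.mem_univ _, rfl⟩

theorem not_two (m : ℕ) (f : Vtx ⊕ Fin m → ℕ) (hf : ∀ v, 1 ≤ f v ∧ f v ≤ 2)
    (h : IsAdditive (H m) f) : False := by
  apply Pend.no_labelling (fun x => f (Sum.inl x)) (fun v => hf _)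
  intro a b hab
  have := h (Sum.inl (Sum.inr a)) (Sum.inl (Sum.inr b)) hab
  rwa [nbrSum_blk, nbrSum_blk] at this

/-- The labelling by `1` and `3`. -/
def labm (m : ℕ) : Vtx ⊕ Fin m → ℕ := Sum.elim lab (fun _ => 1)

theorem labm_additive (m : ℕ) : IsAdditive (H m) (labm m) := by
  have key : ∀ (r : Fin 6) (a : Blk),
      nbrSum (H m) (labm m) (Sum.inl (Sum.inr a)) < nbrSum (H m) (labm m)
        (Sum.inl (Sum.inl r)) := by
    intro r a
    have h1 := nbrSum_outer (labm m) r
    have h2 := outer_ge r
    have h3 := tab_le a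
    rw [nbrSum_blk]
    have h4 : nsum (fun x => labm m (Sum.inl x)) (Sum.inr a) = tab a := nsum_lab a
    have h5 : nsum (fun x => labm m (Sum.inl x)) (Sum.inl r) = nsum lab (Sum.inl r) := rfl
    rw [h4]
    omega
  have pend : ∀ (i : Fin m) (r : Fin 6),
      nbrSum (H m) (labm m) (Sum.inr i) < nbrSum (H m) (labm m) (Sum.inl (Sum.inl r)) := by
    intro i r
    have h1 := nbrSum_outer (labm m) r
    have h2 := outer_ge r
    rw [nbrSum_pendant]
    have h5 : nsum (fun x => labm m (Sum.inl x)) (Sum.inl r) = nsum lab (Sum.inl r) := rfl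
    have h6 : labm m (Sum.inl (Sum.inl 0)) = 1 := rfl
    omega
  rintro (x | i) (y | j) h
  · have h' : adj x y = true := h
    rcases x with r | a
    · rcases y with r' | b
      · exact absurd h' (by simp [adj])
      · exact (key r b).ne'
    · rcases y with r' | b
      · exact (key r' a).ne
      · rw [nbrSum_blk, nbrSum_blk]
        have h4 : ∀ a, nsum (fun x => labm m (Sum.inl x)) (Sum.inr a) = tab a := nsum_lab
        rw [h4, h4]
        exact tab_ne a b h'
  · have h' : x = Sum.inl 0 := h
    subst h'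
    exact (pend j 0).ne'
  · have h' : y = Sum.inl 0 := h
    subst h'
    exact (pend i 0).ne
  · exact absurd h (fun h => h)

theorem H_eta (m : ℕ) : eta (H m) = 3 := by
  unfold eta
  apply le_antisymm
  · apply Nat.sInf_le
    refine ⟨by norm_num, labm m, ?_, labm_additive m⟩
    rintro (x | i)
    · exact lab_pos x
    · exact ⟨le_rfl, by change 1 ≤ 3; norm_num⟩
  · apply le_csInf
    · exact ⟨3, by norm_num, labm m, by
        rintro (x | i)
        · exact lab_pos x
        · exact ⟨le_rfl, by change 1 ≤ 3; norm_num⟩, labm_additive m⟩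
    · rintro k ⟨_, f, hf, hadd⟩
      by_contra hk
      exact not_two m f (fun v => ⟨(hf v).1, (hf v).2.trans (by omega)⟩) hadd

/-- For every `n ≥ 151` there is a connected graph with `n` vertices, with chromatic number `2`
and additive colouring number `3`. -/
theorem result : ∀ n : ℕ, 151 ≤ n → ∃ (V : Type) (_ : Fintype V) (G : SimpleGraph V),
    Fintype.card V = n ∧ G.Connected ∧ G.chromaticNumber = 2 ∧ eta G = 3 := by
  intro n hn
  refine ⟨Vtx ⊕ Fin (n - 151), inferInstance, H (n - 151), ?_, H_connected _, H_chi _, H_eta _⟩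
  simp only [Fintype.card_sum, Fintype.card_prod, Fintype.card_fin]
  omega

end Pool.Agent.Results.MP_d93746_co.BipartiteThree
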